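import Mathlib
import Pool.Agent.Work.MP_356e41_ag.Defs
import Pool.Agent.Work.MP_356e41_ag.Proofs

set_option autoImplicit false

namespace Pool.Agent.Results.MP_356e41_ag.SqrtOrbits

open Pool.Agent.Work.MP_356e41_ag

universe u

/-- The multiplicities `m_{p,{λ}_n}(V_n(I))` need not be eventually polynomial in `n`.
* For every real closed field `R` there is a symmetric function `f ∈ Λ` with
  `m_{0,(n)}(V_n((f))) = 2⌊√n⌋ + 1` for all `n`, and this is not eventually polynomial.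
* For `R = ℝ`, with singular cohomology, the assertion of the question (for all finitely generated
  ideals `I ⊆ Λ`, all partitions `λ` and all `p ≥ 0`) is false. -/
theorem result :
    (∀ (R : Type u) [Field R] [LinearOrder R] [IsStrictOrderedRing R] [IsRealClosed R]
      [TopologicalSpace R] [OrderTopology R],
      ∃ f : Lam R,
        (∀ (n : ℕ) (μ : YoungDiagram) (t : Fin n ≃ μ.cells), IsPadded ⊥ μ →
          multH0 (Ideal.span {f}) t = 2 * Nat.sqrt n + 1) ∧
        ¬ ∃ (P : Polynomial ℚ) (N : ℕ), ∀ n ≥ N, ∀ (μ : YoungDiagram) (t : Fin n ≃ μ.cells),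
          IsPadded ⊥ μ → (multH0 (Ideal.span {f}) t : ℚ) = P.eval (n : ℚ)) ∧
    ¬ (∀ I : Ideal (Lam ℝ), I.FG → ∀ (lam : YoungDiagram) (p : ℕ),
        ∃ (P : Polynomial ℚ) (N : ℕ), ∀ n ≥ N, ∀ (μ : YoungDiagram) (t : Fin n ≃ μ.cells),
          IsPadded lam μ → (multSing p I t : ℚ) = P.eval (n : ℚ)) := by
  refine ⟨?_, ?_⟩
  · intro R _ _ _ _ _ _
    refine ⟨theF R, fun n μ t hμ => mult_rep0 R n μ t hμ, ?_⟩
    rintro ⟨P, N, h⟩
    obtain ⟨n, hn, hne⟩ := not_quasi 1 le_rfl (fun _ => P) N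
    apply hne
    rw [← h n hn (rowDiag n) (rowTab n) (rowDiag_padded n), multH0,
      mult_rep0 R n (rowDiag n) (rowTab n) (rowDiag_padded n)]
  · intro H
    obtain ⟨P, N, h⟩ := H (Ideal.span {theF ℝ}) ⟨{theF ℝ}, by simp⟩ ⊥ 0
    obtain ⟨n, hn, hne⟩ := not_quasi 1 le_rfl (fun _ => P) N
    apply hne
    rw [← h n hn (rowDiag n) (rowTab n) (rowDiag_padded n), multSing,
      mult_repSing n (rowDiag n) (rowTab n) (rowDiag_padded n)]

end Pool.Agent.Results.MP_356e41_ag.SqrtOrbits
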